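import Mathlib

/-!
Project GapOrders (MP_3ec731_nt): windows, configurations of clusters.
-/

set_option autoImplicit false

namespace Pool.Agent.Helper71.GO

open Finset

/-- `k + 1` consecutive elements of `S` with the `k` gaps `g 0, ..., g (k - 1)` -/
def Win (S : Finset ℕ) (k : ℕ) (g : ℕ → ℕ) : Prop :=
  ∃ x : ℕ, (∀ i < k, 0 < g i) ∧
    ∀ y : ℕ, x ≤ y → y ≤ x + ∑ i ∈ range k, g i → (y ∈ S ↔ ∃ i ≤ k, x + ∑ j ∈ range i, g j = y)

/-- The gap pattern `Q` of `k` gaps is forced by a configuration of `R` clusters of given sizes. -/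
def Forced (k : ℕ) (Q : (ℕ → ℕ) → Prop) : Prop :=
  ∀ (M R : ℕ) (c : ℕ → ℕ), 0 < M → ∃ C : ℕ → Finset ℕ, (∀ i < R, (C i).card = c i) ∧
    (∀ i < R, ∀ j < R, i ≠ j → Disjoint (C i) (C j)) ∧ (∀ i < R, ∀ h ∈ C i, M ∣ h) ∧
    ∀ S : Finset ℕ, (∀ x ∈ S, ∃ i < R, x ∈ C i) →
      (∃ i < R, ∃ j < R, i ≠ j ∧ k + 1 ≤ (S ∩ C i).card ∧ k + 1 ≤ (S ∩ C j).card) →
      ∃ g, Q g ∧ Win S k g

/-- The scales of the clusters, with thresholds `m, s, d, e`: all inner gaps of the cluster `j` lie
between `s j` and `d j`, the gap before the cluster `j` is at least `e j`. -/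
structure Cfg (F : ℕ → ℕ) (low : Prop) (R : ℕ) (C : ℕ → Finset ℕ) (m s d e : ℕ → ℕ) : Prop where
  le_m : ∀ j < R, ∀ i < j, ∀ x ∈ C i, x ≤ m j
  m_s : ¬ low → ∀ j < R, F (m j) < s j
  m_e : ∀ j < R, F (m j) < e j
  d_e : ∀ j < R, F (d j) < e j
  intra : ∀ j < R, ∀ x ∈ C j, ∀ y ∈ C j, x < y → x + s j ≤ y ∧ y ≤ x + d j
  inter : ∀ j < R, ∀ i < j, ∀ x ∈ C i, ∀ y ∈ C j, x + e j ≤ y
  low_s : low → ∀ j < R, ∀ i < j, F (d j) < s i
  low_e : low → ∀ j < R, ∀ i < j, F (d j) < e i

/-- rapidly growing sequence of multiples of `M` -/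
def ww (F : ℕ → ℕ) (M : ℕ) : ℕ → ℕ
  | 0 => M
  | n + 1 => M * (3 * ww F M n + F (3 * ww F M n) + 1)

section ww

variable {F : ℕ → ℕ} {M : ℕ}

theorem dvd_ww (n : ℕ) : M ∣ ww F M n := by
  cases n with
  | zero => exact dvd_rfl
  | succ n => exact dvd_mul_right _ _

theorem ww_succ (hM : 0 < M) (n : ℕ) : 3 * ww F M n + F (3 * ww F M n) < ww F M (n + 1) := by
  change _ < M * (3 * ww F M n + F (3 * ww F M n) + 1)
  calc 3 * ww F M n + F (3 * ww F M n) < 1 * (3 * ww F M n + F (3 * ww F M n) + 1) := by omega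
    _ ≤ _ := Nat.mul_le_mul_right _ hM

theorem ww_pos (hM : 0 < M) (n : ℕ) : 0 < ww F M n := by
  cases n with
  | zero => exact hM
  | succ n => exact lt_of_le_of_lt (Nat.zero_le _) (ww_succ hM n)

theorem ww_mono (hM : 0 < M) : StrictMono (ww F M) :=
  strictMono_nat_of_lt_succ fun n => by
    have := ww_succ (F := F) hM n
    omega

/-- `w b - w a` for `a < b` is large. -/
theorem ww_gap (hM : 0 < M) {a b : ℕ} (hab : a < b) :
    3 * ww F M a + F (3 * ww F M a) < ww F M b :=
  lt_of_lt_of_le (ww_succ hM a) ((ww_mono hM).monotone hab)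

end ww

theorem exists_cfg (F : ℕ → ℕ) (hF : Monotone F) (low dec : Prop) (M R : ℕ) (c : ℕ → ℕ)
    (hM : 0 < M) :
    ∃ (C : ℕ → Finset ℕ) (m s d e : ℕ → ℕ), (∀ i < R, (C i).card = c i) ∧
      (∀ i < R, ∀ h ∈ C i, M ∣ h) ∧ Cfg F low R C m s d e ∧
      (¬ dec → ∀ i < R, ∀ x ∈ C i, ∀ y ∈ C i, ∀ z ∈ C i, x < y → y < z → F (y - x) < z - y) ∧
      (dec → ∀ i < R, ∀ x ∈ C i, ∀ y ∈ C i, ∀ z ∈ C i, x < y → y < z → F (z - y) < y - x) := by
  classical
  obtain ⟨B, hB⟩ : ∃ B : ℕ, ∀ i < R, c i + 2 ≤ B := by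
    refine ⟨(∑ i ∈ range R, c i) + 2, fun i hi => ?_⟩
    have := single_le_sum (f := c) (fun _ _ => Nat.zero_le _) (mem_range.2 hi)
    omega
  set w := ww F M with hw
  have hwm : StrictMono w := ww_mono hM
  have hwg : ∀ {a b : ℕ}, a < b → 3 * w a + F (3 * w a) < w b := fun h => ww_gap hM h
  -- the indices of the scales
  obtain ⟨β, ξ, hβξ, hξ, hnl, hl, hl2⟩ : ∃ β ξ : ℕ → ℕ, (∀ i < R, β i + B ≤ ξ i) ∧
      (∀ j < R, ∀ i < j, ξ i < ξ j) ∧ (¬ low → ∀ j < R, ∀ i < j, ξ i ≤ β j) ∧
      (low → ∀ j < R, ∀ i < j, β j + B ≤ β i) ∧ (low → ∀ j < R, ∀ i < R, β j + B ≤ ξ i) := by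
    by_cases hlow : low
    · refine ⟨fun i => (R - 1 - i) * B, fun i => R * B + i, fun i hi => ?_, fun j _ i hi => ?_,
        fun h => absurd hlow h, fun _ j hj i hi => ?_, fun _ j hj i hi => ?_⟩
      · calc (R - 1 - i) * B + B = (R - 1 - i + 1) * B := by ring
          _ ≤ R * B := Nat.mul_le_mul_right _ (by omega)
          _ ≤ _ := Nat.le_add_right _ _
      · exact Nat.add_lt_add_left hi _
      · calc (R - 1 - j) * B + B = (R - 1 - j + 1) * B := by ring
          _ ≤ (R - 1 - i) * B := Nat.mul_le_mul_right _ (by omega)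
      · calc (R - 1 - j) * B + B = (R - 1 - j + 1) * B := by ring
          _ ≤ R * B := Nat.mul_le_mul_right _ (by omega)
          _ ≤ _ := Nat.le_add_right _ _
    · refine ⟨fun i => i * B, fun i => i * B + B, fun i _ => le_rfl, fun j hj i hi => ?_,
        fun _ j hj i hi => ?_, fun h => absurd h hlow, fun h => absurd h hlow⟩
      · have := hB j hj
        calc i * B + B < i * B + B + B := by omega
          _ = (i + 1) * B + B := by ring
          _ ≤ j * B + B := Nat.add_le_add_right (Nat.mul_le_mul_right _ hi) _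
      · calc i * B + B = (i + 1) * B := by ring
          _ ≤ j * B := Nat.mul_le_mul_right _ hi
  -- offsets
  obtain ⟨o, ho0, ho1, ho2, ho3⟩ : ∃ o : ℕ → ℕ → ℕ,
      (∀ i < R, ∀ a < c i, o i a ≤ w (β i + B - 1)) ∧
      (∀ i < R, ∀ a < c i, M ∣ o i a) ∧
      (¬ dec → ∀ i a, o i a = w (β i + a + 1)) ∧
      (dec → ∀ i < R, ∀ a < c i, o i a + w (β i + a + 1) = w (β i + B - 1)) := by
    by_cases hd : dec
    · refine ⟨fun i a => w (β i + B - 1) - w (β i + a + 1), fun i _ a _ => Nat.sub_le _ _,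
        fun i _ a _ => Nat.dvd_sub (dvd_ww _) (dvd_ww _), fun h => absurd hd h,
        fun _ i hi a ha => Nat.sub_add_cancel (hwm.monotone ?_)⟩
      have := hB i hi
      omega
    · refine ⟨fun i a => w (β i + a + 1), fun i hi a ha => hwm.monotone ?_,
        fun i _ a _ => dvd_ww _, fun _ i a => rfl, fun h => absurd h hd⟩
      have := hB i hi
      omega
  set C : ℕ → Finset ℕ := fun i => (range (c i)).image (fun a => w (ξ i) + o i a) with hC
  -- differences of offsets
  have hdiff : ∀ i < R, ∀ a < c i, ∀ b < c i, o i a < o i b →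
      ∃ a' b' : ℕ, a' < b' ∧ a' < c i ∧ b' < c i ∧
        o i b - o i a = w (β i + b' + 1) - w (β i + a' + 1) := by
    intro i hi a ha b hb hab
    by_cases hd : dec
    · have h1 := ho3 hd i hi a ha
      have h2 := ho3 hd i hi b hb
      have h3 : w (β i + b + 1) < w (β i + a + 1) := by omega
      have h4 := hwm.lt_iff_lt.1 h3
      exact ⟨b, a, by omega, hb, ha, by omega⟩
    · rw [ho2 hd, ho2 hd] at hab
      have h4 := hwm.lt_iff_lt.1 hab
      exact ⟨a, b, by omega, ha, hb, by rw [ho2 hd, ho2 hd]⟩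
  have hinj : ∀ i < R, ∀ a < c i, ∀ b < c i, o i a = o i b → a = b := by
    intro i hi a ha b hb hab
    by_cases hd : dec
    · have h1 := ho3 hd i hi a ha
      have h2 := ho3 hd i hi b hb
      have h3 : w (β i + b + 1) = w (β i + a + 1) := by omega
      have h4 := hwm.injective h3
      omega
    · rw [ho2 hd, ho2 hd] at hab
      have h4 := hwm.injective hab
      omega
  have hBR : ∀ i < R, 2 ≤ B := fun i hi => by have := hB i hi; omega
  refine ⟨C, fun j => if low then 2 * w (ξ j - 1) else 2 * w (β j), fun j => F (2 * w (β j)) + 1,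
    fun j => w (β j + B - 1), fun j => F (2 * w (ξ j - 1)) + 1, ?_, ?_, ?_, ?_, ?_⟩
  · intro i hi
    rw [hC]
    simp only
    rw [card_image_of_injOn, card_range]
    intro a ha b hb hab
    rw [mem_coe, mem_range] at ha hb
    simp only at hab
    exact hinj i hi a ha b hb (by omega)
  · intro i hi h hh
    obtain ⟨a, ha, rfl⟩ := mem_image.1 hh
    exact dvd_add (dvd_ww _) (ho1 i hi a (mem_range.1 ha))
  · refine ⟨?_, ?_, ?_, ?_, ?_, ?_, ?_, ?_⟩
    · intro j hj i hi x hx
      obtain ⟨a, ha, rfl⟩ := mem_image.1 hx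
      have h1 := ho0 i (hi.trans hj) a (mem_range.1 ha)
      have h0 := hβξ i (hi.trans hj)
      have h5 := hBR j hj
      split_ifs with hlow
      · have h2 : w (ξ i) ≤ w (ξ j - 1) := hwm.monotone (by have := hξ j hj i hi; omega)
        have h3 : w (β i + B - 1) ≤ w (ξ j - 1) :=
          hwm.monotone (by have := hξ j hj i hi; omega)
        omega
      · have h2 : w (ξ i) ≤ w (β j) := hwm.monotone (hnl hlow j hj i hi)
        have h3 : w (β i + B - 1) ≤ w (β j) :=
          hwm.monotone (by have := hnl hlow j hj i hi; omega)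
        omega
    · intro hlow j _
      rw [if_neg hlow]
      omega
    · intro j hj
      split_ifs with hlow
      · omega
      · have h0 := hβξ j hj
        have : F (2 * w (β j)) ≤ F (2 * w (ξ j - 1)) := by
          refine hF (Nat.mul_le_mul_left _ (hwm.monotone ?_))
          have := hBR j hj
          omega
        omega
    · intro j hj
      have h0 := hβξ j hj
      have h1 : w (β j + B - 1) ≤ w (ξ j - 1) := hwm.monotone (by omega)
      have : F (w (β j + B - 1)) ≤ F (2 * w (ξ j - 1)) := hF (by omega)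
      omega
    · intro j hj x hx y hy hxy
      obtain ⟨a, ha, rfl⟩ := mem_image.1 hx
      obtain ⟨b, hb, rfl⟩ := mem_image.1 hy
      rw [mem_range] at ha hb
      obtain ⟨a', b', hab', ha', hb', he⟩ := hdiff j hj a ha b hb (by omega)
      have h1 := hwg (show β j + a' + 1 < β j + b' + 1 by omega)
      have h2 : w (β j) < w (β j + a' + 1) := hwm (by omega)
      have h3 : F (2 * w (β j)) ≤ F (3 * w (β j + a' + 1)) := hF (by omega)
      have h4 := ho0 j hj b hb
      omega
    · intro j hj i hi x hx y hy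
      obtain ⟨a, ha, rfl⟩ := mem_image.1 hx
      obtain ⟨b, hb, rfl⟩ := mem_image.1 hy
      rw [mem_range] at ha hb
      have h0 := hβξ i (hi.trans hj)
      have h0' := hβξ j hj
      have h6 := hξ j hj i hi
      have h7 := hBR j hj
      have h1 := ho0 i (hi.trans hj) a ha
      have h2 := hwg (show ξ j - 1 < ξ j by omega)
      have h3 : w (ξ i) ≤ w (ξ j - 1) := hwm.monotone (by omega)
      have h4 : w (β i + B - 1) ≤ w (ξ j - 1) := hwm.monotone (by omega)
      have h5 : F (2 * w (ξ j - 1)) ≤ F (3 * w (ξ j - 1)) := hF (by omega)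
      omega
    · intro hlow j hj i hi
      have h1 : w (β j + B - 1) ≤ w (β i) := hwm.monotone (by
        have := hl hlow j hj i hi
        omega)
      have h2 : F (w (β j + B - 1)) ≤ F (2 * w (β i)) := hF (by omega)
      omega
    · intro hlow j hj i hi
      have h1 : w (β j + B - 1) ≤ w (ξ i - 1) := hwm.monotone (by
        have := hl2 hlow j hj i (hi.trans hj)
        omega)
      have h2 : F (w (β j + B - 1)) ≤ F (2 * w (ξ i - 1)) := hF (by omega)
      omega
  · intro hd i hi x hx y hy z hz hxy hyz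
    obtain ⟨a, ha, rfl⟩ := mem_image.1 hx
    obtain ⟨b, hb, rfl⟩ := mem_image.1 hy
    obtain ⟨e, he, rfl⟩ := mem_image.1 hz
    rw [mem_range] at ha hb he
    simp only [ho2 hd] at hxy hyz ⊢
    have h1 : a < b := by
      have := hwm.lt_iff_lt.1 (show w (β i + a + 1) < w (β i + b + 1) by omega)
      omega
    have h2 : b < e := by
      have := hwm.lt_iff_lt.1 (show w (β i + b + 1) < w (β i + e + 1) by omega)
      omega
    have h3 := hwg (show β i + b + 1 < β i + e + 1 by omega)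
    have h4 : F (w (ξ i) + w (β i + b + 1) - (w (ξ i) + w (β i + a + 1))) ≤
        F (3 * w (β i + b + 1)) := hF (by omega)
    omega
  · intro hd i hi x hx y hy z hz hxy hyz
    obtain ⟨a, ha, rfl⟩ := mem_image.1 hx
    obtain ⟨b, hb, rfl⟩ := mem_image.1 hy
    obtain ⟨e, he, rfl⟩ := mem_image.1 hz
    rw [mem_range] at ha hb he
    have e1 := ho3 hd i hi a ha
    have e2 := ho3 hd i hi b hb
    have e3 := ho3 hd i hi e he
    have h1 : b < a := by
      have := hwm.lt_iff_lt.1 (show w (β i + b + 1) < w (β i + a + 1) by omega)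
      omega
    have h2 : e < b := by
      have := hwm.lt_iff_lt.1 (show w (β i + e + 1) < w (β i + b + 1) by omega)
      omega
    have h3 := hwg (show β i + b + 1 < β i + a + 1 by omega)
    have h4 : F (w (ξ i) + o i e - (w (ξ i) + o i b)) ≤
        F (3 * w (β i + b + 1)) := hF (by omega)
    omega

end Pool.Agent.Helper71.GO
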