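import Pool.Agent.Helper71.GO.Cfg

/-!
Project GapOrders (MP_3ec731_nt): extraction of windows.
-/

namespace Pool.Agent.Helper71.GO

open Finset

theorem enum (S : Finset ℕ) : ∃ σ : ℕ → ℕ, (∀ i j, i < j → j < S.card → σ i < σ j) ∧
    ∀ x, x ∈ S ↔ ∃ j < S.card, σ j = x := by
  classical
  refine ⟨fun j => if h : j < S.card then S.orderEmbOfFin rfl ⟨j, h⟩ else 0, ?_, ?_⟩
  · intro i j hij hj
    simp only [hj, hij.trans hj, dif_pos]
    exact (S.orderEmbOfFin rfl).strictMono (by simpa using hij)
  · intro x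
    have h := range_orderEmbOfFin S rfl
    constructor
    · intro hx
      have : x ∈ Set.range (S.orderEmbOfFin rfl) := by rw [h]; exact hx
      obtain ⟨j, rfl⟩ := this
      exact ⟨j, j.2, by simp⟩
    · rintro ⟨j, hj, rfl⟩
      simp only [hj, dif_pos]
      exact orderEmbOfFin_mem S rfl _

/-- consecutive elements give a window -/
theorem win_of_enum {S : Finset ℕ} {σ : ℕ → ℕ} (h1 : ∀ i j, i < j → j < S.card → σ i < σ j)
    (h2 : ∀ x, x ∈ S ↔ ∃ j < S.card, σ j = x) {k j : ℕ} (hj : j + k < S.card) :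
    Win S k (fun i => σ (j + i + 1) - σ (j + i)) := by
  have hsum : ∀ i ≤ k, σ j + ∑ l ∈ range i, (σ (j + l + 1) - σ (j + l)) = σ (j + i) := by
    intro i
    induction i with
    | zero => intro _; simp
    | succ i ih =>
      intro hi
      rw [sum_range_succ, ← add_assoc, ih (by omega)]
      have := h1 (j + i) (j + i + 1) (by omega) (by omega)
      have e : j + (i + 1) = j + i + 1 := by omega
      rw [e]
      omega
  refine ⟨σ j, fun i hi => ?_, fun y hy1 hy2 => ?_⟩
  · have := h1 (j + i) (j + i + 1) (by omega) (by omega)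
    simp only
    omega
  · rw [hsum k le_rfl] at hy2
    rw [h2]
    constructor
    · rintro ⟨l, hl, rfl⟩
      have h3 : j ≤ l := by
        by_contra hcon
        have := h1 l j (by omega) (by omega)
        omega
      have h4 : l ≤ j + k := by
        by_contra hcon
        have := h1 (j + k) l (by omega) hl
        omega
      refine ⟨l - j, by omega, ?_⟩
      rw [hsum _ (by omega), Nat.add_sub_cancel' h3]
    · rintro ⟨i, hi, he⟩
      rw [hsum i hi] at he
      exact ⟨j + i, by omega, he⟩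

/-- the facts on the sequence of gaps `G` with the cluster labels `c` -/
structure Sq (F : ℕ → ℕ) (low dec : Prop) (k n : ℕ) (G c : ℕ → ℕ) (a b : ℕ) : Prop where
  mono : ∀ i j, i ≤ j → j < n → c i ≤ c j
  ab : a + k < b
  bn : b + k < n
  ca : ∀ l ≤ k, c (a + l) = c a
  cb : ∀ l ≤ k, c (b + l) = c b
  fst : ∀ j < b, c j < c b
  g1 : ∀ i j, i < j → j + 1 < n → c j < c (j + 1) → F (G i) < G j
  g2 : ∀ i j, i < j → j + 1 < n → c i < c (i + 1) → c (i + 1) = c (j + 1) → F (G j) < G i
  g3 : ¬ low → ∀ i j, i < j → j + 1 < n → c j = c (j + 1) → c (i + 1) < c j → F (G i) < G j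
  g3' : low → ∀ i j, i < j → j + 1 < n → c j = c (j + 1) → c (i + 1) < c j → F (G j) < G i
  g4 : ¬ dec → ∀ i j, i < j → j + 1 < n → c i = c (j + 1) → F (G i) < G j
  g5 : dec → ∀ i j, i < j → j + 1 < n → c i = c (j + 1) → F (G j) < G i

theorem forced_of (F : ℕ → ℕ) (hF : Monotone F) (low dec : Prop) (k : ℕ) (Q : (ℕ → ℕ) → Prop)
    (H : ∀ (n : ℕ) (G c : ℕ → ℕ) (a b : ℕ), Sq F low dec k n G c a b →
      ∃ j, j + k < n ∧ Q (fun i => G (j + i))) : Forced k Q := by
  classical
  intro M R sz hM
  obtain ⟨C, m, s, d, e, hC1, hC2, hC, hinc, hdec⟩ := exists_cfg F hF low dec M R sz hM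
  have hlt : ∀ j < R, ∀ i < j, ∀ x ∈ C i, ∀ y ∈ C j, x < y := by
    intro j hj i hi x hx y hy
    have h1 := hC.inter j hj i hi x hx y hy
    have h2 := hC.m_e j hj
    omega
  have hdisj : ∀ i < R, ∀ j < R, i ≠ j → Disjoint (C i) (C j) := by
    intro i hi j hj hij
    rw [Finset.disjoint_left]
    intro x hx hx'
    rcases Nat.lt_or_gt_of_ne hij with h | h
    · exact absurd (hlt j hj i h x hx x hx') (lt_irrefl _)
    · exact absurd (hlt i hi j h x hx' x hx) (lt_irrefl _)
  refine ⟨C, hC1, hdisj, hC2, fun S hS hrich => ?_⟩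
  obtain ⟨σ, hσ1, hσ2⟩ := enum S
  set n := S.card with hn
  have hc : ∀ j, ∃ i, j < n → i < R ∧ σ j ∈ C i := by
    intro j
    by_cases hj : j < n
    · obtain ⟨i, hi, h⟩ := hS (σ j) ((hσ2 _).2 ⟨j, hj, rfl⟩)
      exact ⟨i, fun _ => ⟨hi, h⟩⟩
    · exact ⟨0, fun h => absurd h hj⟩
  choose c hc using hc
  have hmono : ∀ i j, i ≤ j → j < n → c i ≤ c j := by
    intro i j hij hj
    by_contra hcon
    rw [not_le] at hcon
    have h1 := hc i (lt_of_le_of_lt hij hj)
    have h2 := hc j hj
    have h3 := hlt _ h1.1 _ hcon _ h2.2 _ h1.2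
    rcases Nat.eq_or_lt_of_le hij with h | h
    · rw [h] at h3; exact lt_irrefl _ h3
    · have := hσ1 i j h hj
      omega
  -- runs of rich clusters
  have hrun : ∀ i < R, k + 1 ≤ (S ∩ C i).card →
      ∃ a, a + k < n ∧ (∀ l ≤ k, c (a + l) = i) ∧ ∀ j < a, c j < i := by
    intro i hi hcard
    set I := (range n).filter (fun j => c j = i) with hI
    have hIc : k + 1 ≤ I.card := by
      refine hcard.trans ?_
      have hsub : S ∩ C i ⊆ I.image σ := by
        intro x hx
        rw [mem_inter] at hx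
        obtain ⟨j, hj, rfl⟩ := (hσ2 x).1 hx.1
        refine mem_image.2 ⟨j, mem_filter.2 ⟨mem_range.2 hj, ?_⟩, rfl⟩
        by_contra hne
        exact (Finset.disjoint_left.1 (hdisj _ (hc j hj).1 _ hi hne)) (hc j hj).2 hx.2
      exact (card_le_card hsub).trans card_image_le
    have hne : I.Nonempty := card_pos.1 (by omega)
    set a := I.min' hne with ha
    have haI : a ∈ I := min'_mem _ _
    rw [hI, mem_filter, mem_range] at haI
    have hak : a + k < n ∧ c (a + k) = i := by
      by_contra hcon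
      have hsub : I ⊆ Ico a (a + k) := by
        intro j hj
        have h1 : a ≤ j := min'_le _ _ hj
        rw [hI, mem_filter, mem_range] at hj
        rw [mem_Ico]
        refine ⟨h1, ?_⟩
        by_contra h2
        rw [not_lt] at h2
        apply hcon
        refine ⟨lt_of_le_of_lt h2 hj.1, le_antisymm ?_ ?_⟩
        · rw [← hj.2]; exact hmono _ _ h2 hj.1
        · rw [← haI.2]; exact hmono _ _ (by omega) (lt_of_le_of_lt h2 hj.1)
      have := card_le_card hsub
      rw [Nat.card_Ico] at this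
      omega
    refine ⟨a, hak.1, fun l hl => le_antisymm ?_ ?_, fun j hj => ?_⟩
    · rw [← hak.2]; exact hmono _ _ (by omega) hak.1
    · rw [← haI.2]; exact hmono _ _ (by omega) (by omega)
    · refine lt_of_le_of_ne ?_ ?_
      · rw [← haI.2]; exact hmono _ _ hj.le haI.1
      · intro h
        have : a ≤ j := min'_le _ _ (mem_filter.2 ⟨mem_range.2 (hj.trans haI.1), h⟩)
        omega
  -- the gap facts
  have hlab : ∀ i j, i < n → j < n → i < j → ∀ t < R, c j < t → σ j ≤ m t ∧ σ i ≤ m t := by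
    intro i j hi hj hij t ht hct
    have h1 := hC.le_m t ht _ hct _ (hc j hj).2
    have h2 := hσ1 i j hij hj
    omega
  have hsq : ∀ a b, a + k < b → b + k < n → (∀ l ≤ k, c (a + l) = c a) →
      (∀ l ≤ k, c (b + l) = c b) → (∀ j < b, c j < c b) →
      Sq F low dec k n (fun j => σ (j + 1) - σ j) c a b := by
    intro a b hab hb hca hcb hfst
    refine ⟨hmono, hab, hb, hca, hcb, hfst, ?_, ?_, ?_, ?_, ?_, ?_⟩
    · intro i j hij hj hcj
      have h1 := hc (j + 1) hj
      have h2 := hc j (by omega)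
      have h3 := hC.inter _ h1.1 _ hcj _ h2.2 _ h1.2
      have h4 : σ (i + 1) ≤ m (c (j + 1)) :=
        hC.le_m _ h1.1 _ (lt_of_le_of_lt (hmono (i + 1) j (by omega) (by omega)) hcj) _
          (hc (i + 1) (by omega)).2
      have h5 : F (σ (i + 1) - σ i) ≤ F (m (c (j + 1))) := hF (by omega)
      have h6 := hC.m_e _ h1.1
      omega
    · intro i j hij hj hci hce
      have h1 := hc (i + 1) (by omega)
      have h2 := hc i (by omega)
      have h3 := hC.inter _ h1.1 _ hci _ h2.2 _ h1.2
      have h4 := hc (j + 1) hj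
      have h5 := hc j (by omega)
      have h6 : c j = c (i + 1) := by
        refine le_antisymm ?_ (hmono _ _ (by omega) (by omega))
        rw [hce]; exact hmono _ _ (by omega) hj
      rw [← hce] at h4
      rw [h6] at h5
      have h7 := hC.intra _ h1.1 _ h5.2 _ h4.2 (hσ1 j (j + 1) (by omega) hj)
      have h8 : F (σ (j + 1) - σ j) ≤ F (d (c (i + 1))) := hF (by omega)
      have h9 := hC.d_e _ h1.1
      omega
    · intro hlow i j hij hj hcj hci
      have h1 := hc (j + 1) hj
      have h2 := hc j (by omega)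
      rw [← hcj] at h1
      have h3 := hC.intra _ h1.1 _ h2.2 _ h1.2 (hσ1 j (j + 1) (by omega) hj)
      have h4 := hC.le_m _ h1.1 _ hci _ (hc (i + 1) (by omega)).2
      have h5 : F (σ (i + 1) - σ i) ≤ F (m (c j)) := hF (by omega)
      have h6 := hC.m_s hlow _ h1.1
      omega
    · intro hlow i j hij hj hcj hci
      have h1 := hc (j + 1) hj
      have h2 := hc j (by omega)
      rw [← hcj] at h1
      have h3 := hC.intra _ h1.1 _ h2.2 _ h1.2 (hσ1 j (j + 1) (by omega) hj)
      have h4 : F (σ (j + 1) - σ j) ≤ F (d (c j)) := hF (by omega)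
      have h5 := hc i (by omega)
      have h6 := hc (i + 1) (by omega)
      have h7 := hσ1 i (i + 1) (by omega) (by omega)
      have h8 := hC.low_s hlow _ h1.1 _ hci
      have h9 := hC.low_e hlow _ h1.1 _ hci
      rcases Nat.eq_or_lt_of_le (hmono i (i + 1) (by omega) (by omega)) with he | hl
      · rw [he] at h5
        have h10 := hC.intra _ h6.1 _ h5.2 _ h6.2 h7
        omega
      · have h10 := hC.inter _ h6.1 _ hl _ h5.2 _ h6.2
        omega
    · intro hd i j hij hj hce
      have h0 := hc i (by omega)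
      have h1 := hc (j + 1) hj
      have h2 := hc j (by omega)
      have h3 : c j = c i := by
        refine le_antisymm ?_ (hmono _ _ (by omega) (by omega))
        rw [hce]; exact hmono _ _ (by omega) hj
      rw [← hce] at h1
      rw [h3] at h2
      have h4 := hinc hd _ h0.1 _ h0.2 _ h2.2 _ h1.2 (hσ1 i j hij (by omega))
        (hσ1 j (j + 1) (by omega) hj)
      have h5 : σ (i + 1) ≤ σ j := by
        rcases Nat.eq_or_lt_of_le (show i + 1 ≤ j by omega) with h | h
        · rw [h]
        · exact (hσ1 _ _ h (by omega)).le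
      have h6 : F (σ (i + 1) - σ i) ≤ F (σ j - σ i) := hF (by omega)
      omega
    · intro hd i j hij hj hce
      have h0 := hc i (by omega)
      have h1 := hc (j + 1) hj
      have h2 := hc (i + 1) (by omega)
      have h3 : c (i + 1) = c i := by
        refine le_antisymm ?_ (hmono _ _ (by omega) (by omega))
        rw [hce]; exact hmono _ _ (by omega) hj
      rw [← hce] at h1
      rw [h3] at h2
      have h4 := hdec hd _ h0.1 _ h0.2 _ h2.2 _ h1.2 (hσ1 i (i + 1) (by omega) (by omega))
        (hσ1 (i + 1) (j + 1) (by omega) hj)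
      have h5 : σ (i + 1) ≤ σ j := by
        rcases Nat.eq_or_lt_of_le (show i + 1 ≤ j by omega) with h | h
        · rw [h]
        · exact (hσ1 _ _ h (by omega)).le
      have h6 : F (σ (j + 1) - σ j) ≤ F (σ (j + 1) - σ (i + 1)) := hF (by omega)
      omega
  -- two rich clusters
  obtain ⟨i, hi, i', hi', hne, hr, hr'⟩ : ∃ i < R, ∃ j < R, i ≠ j ∧
      k + 1 ≤ (S ∩ C i).card ∧ k + 1 ≤ (S ∩ C j).card := hrich
  wlog hii : i < i' generalizing i i'
  · exact this i' hi' i hi hne.symm hr' hr (by omega)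
  obtain ⟨a, ha1, ha2, ha3⟩ := hrun i hi hr
  obtain ⟨b, hb1, hb2, hb3⟩ := hrun i' hi' hr'
  have hca : c a = i := by simpa using ha2 0 (Nat.zero_le _)
  have hcb : c b = i' := by simpa using hb2 0 (Nat.zero_le _)
  have hab : a + k < b := by
    by_contra hcon
    have h1 := hmono b (a + k) (by omega) ha1
    rw [ha2 k le_rfl, hcb] at h1
    omega
  obtain ⟨j, hj, hQ⟩ := H n (fun j => σ (j + 1) - σ j) c a b
    (hsq a b hab hb1 (fun l hl => by rw [ha2 l hl, hca]) (fun l hl => by rw [hb2 l hl, hcb])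
      (fun l hl => by rw [hcb]; exact hb3 l hl))
  exact ⟨_, hQ, win_of_enum hσ1 hσ2 hj⟩

/-- the sum of the reversed gaps -/
theorem sum_rev (g : ℕ → ℕ) (k : ℕ) : ∀ i ≤ k,
    ∑ j ∈ range i, g (k - 1 - j) + ∑ j ∈ range (k - i), g j = ∑ j ∈ range k, g j := by
  intro i
  induction i with
  | zero => intro _; simp
  | succ i ih =>
    intro hi
    rw [← ih (by omega), sum_range_succ]
    have e : k - i = k - (i + 1) + 1 := by omega
    rw [e, sum_range_succ]
    have e2 : k - 1 - i = k - (i + 1) := by omega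
    rw [e2]
    ring

theorem forced_mirror {k : ℕ} {Q : (ℕ → ℕ) → Prop}
    (hQ : ∀ g g' : ℕ → ℕ, (∀ i < k, g i = g' i) → Q g → Q g') (h : Forced k Q) :
    Forced k (fun g => Q (fun i => g (k - 1 - i))) := by
  classical
  intro M R sz hM
  obtain ⟨C, hC1, hC2, hC3, hC4⟩ := h M R sz hM
  obtain ⟨L, hML, hL⟩ : ∃ L, M ∣ L ∧ ∀ i < R, ∀ x ∈ C i, x ≤ L := by
    refine ⟨M * ∑ i ∈ range R, ∑ x ∈ C i, x, dvd_mul_right _ _, fun i hi x hx => ?_⟩
    calc x ≤ ∑ x ∈ C i, x := single_le_sum (f := fun x => x) (fun _ _ => Nat.zero_le _) hx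
      _ ≤ ∑ i ∈ range R, ∑ x ∈ C i, x :=
          single_le_sum (f := fun i => ∑ x ∈ C i, x) (fun _ _ => Nat.zero_le _) (mem_range.2 hi)
      _ ≤ _ := Nat.le_mul_of_pos_left _ hM
  have hinj : ∀ x y, x ≤ L → y ≤ L → L - x = L - y → x = y := by intro x y; omega
  refine ⟨fun i => (C i).image (fun x => L - x), ?_, ?_, ?_, ?_⟩
  · intro i hi
    rw [card_image_of_injOn, hC1 i hi]
    intro x hx y hy hxy
    exact hinj x y (hL i hi x hx) (hL i hi y hy) hxy
  · intro i hi j hj hij
    rw [Finset.disjoint_left]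
    intro z hz hz'
    obtain ⟨x, hx, rfl⟩ := mem_image.1 hz
    obtain ⟨y, hy, hxy⟩ := mem_image.1 hz'
    have := hinj _ _ (hL j hj y hy) (hL i hi x hx) hxy
    rw [this] at hy
    exact Finset.disjoint_left.1 (hC2 i hi j hj hij) hx hy
  · intro i hi z hz
    obtain ⟨x, hx, rfl⟩ := mem_image.1 hz
    exact Nat.dvd_sub hML (hC3 i hi x hx)
  · intro S hS hrich
    have hSL : ∀ y ∈ S, y ≤ L := by
      intro y hy
      obtain ⟨i, hi, h⟩ := hS y hy
      obtain ⟨x, hx, rfl⟩ := mem_image.1 h
      exact Nat.sub_le _ _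
    have hcard : ∀ i < R, (S ∩ (C i).image (fun x => L - x)).card ≤
        (S.image (fun x => L - x) ∩ C i).card := by
      intro i hi
      refine card_le_card_of_injOn (fun x => L - x) ?_ ?_
      · intro y hy
        rw [mem_coe, mem_inter] at hy
        rw [mem_coe, mem_inter]
        refine ⟨mem_image_of_mem _ hy.1, ?_⟩
        obtain ⟨x, hx, rfl⟩ := mem_image.1 hy.2
        have := hL i hi x hx
        change L - (L - x) ∈ C i
        rw [Nat.sub_sub_self this]
        exact hx
      · intro y hy z hz hyz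
        rw [mem_coe, mem_inter] at hy hz
        exact hinj y z (hSL y hy.1) (hSL z hz.1) hyz
    obtain ⟨g, hg1, x, hx1, hx2⟩ := hC4 (S.image (fun x => L - x)) (by
      intro z hz
      obtain ⟨y, hy, rfl⟩ := mem_image.1 hz
      obtain ⟨i, hi, h⟩ := hS y hy
      obtain ⟨x, hx, rfl⟩ := mem_image.1 h
      refine ⟨i, hi, ?_⟩
      have := hL i hi x hx
      rw [Nat.sub_sub_self this]
      exact hx) (by
      obtain ⟨i, hi, j, hj, hij, h1, h2⟩ := hrich
      exact ⟨i, hi, j, hj, hij, h1.trans (hcard i hi), h2.trans (hcard j hj)⟩)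
    refine ⟨fun i => g (k - 1 - i), ?_, ?_⟩
    · refine hQ g _ (fun i hi => ?_) hg1
      simp only
      congr 1
      omega
    · set T := ∑ i ∈ range k, g i with hT
      have hmem : x + T ∈ S.image (fun x => L - x) :=
        (hx2 (x + T) (by omega) le_rfl).2 ⟨k, le_rfl, rfl⟩
      have hxT : x + T ≤ L := by
        obtain ⟨y, hy, h⟩ := mem_image.1 hmem
        rw [← h]
        exact Nat.sub_le _ _
      have hT' : ∑ i ∈ range k, g (k - 1 - i) = T := by
        have := sum_rev g k k le_rfl
        simpa using this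
      refine ⟨L - (x + T), fun i hi => hx1 _ (by omega), fun y hy1 hy2 => ?_⟩
      rw [hT'] at hy2
      have hyL : y ≤ L := by omega
      have h1 : y ∈ S ↔ L - y ∈ S.image (fun x => L - x) := by
        constructor
        · intro hy
          exact mem_image_of_mem _ hy
        · intro hy
          obtain ⟨z, hz, hzy⟩ := mem_image.1 hy
          have := hinj z y (hSL z hz) hyL hzy
          rwa [← this]
      rw [h1, hx2 (L - y) (by omega) (by omega)]
      constructor
      · rintro ⟨i, hi, he⟩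
        refine ⟨k - i, Nat.sub_le _ _, ?_⟩
        have := sum_rev g k (k - i) (Nat.sub_le _ _)
        rw [Nat.sub_sub_self hi] at this
        change L - (x + T) + ∑ j ∈ range (k - i), g (k - 1 - j) = y
        omega
      · rintro ⟨i, hi, he⟩
        refine ⟨k - i, Nat.sub_le _ _, ?_⟩
        have := sum_rev g k i hi
        change L - (x + T) + ∑ j ∈ range i, g (k - 1 - j) = y at he
        omega

end Pool.Agent.Helper71.GO
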