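import Pool.Agent.Helper71.GO.Ext

/-!
Project GapOrders (MP_3ec731_nt): the forced orders.
-/

namespace Pool.Agent.Helper71.GO

/-- The relation (the gap `i` is much smaller than the gap `j`) between `k` gaps `0, ..., k - 1`
which is forced: the gap `m` is the largest one, the gaps before it are all smaller (`above`) or all
larger (not `above`) than the gaps behind it, and the gaps behind it increase (`inc`) or decrease
(not `inc`). -/
def Rel (m : ℕ) (above inc : Prop) (i j : ℕ) : Prop :=
  (i ≠ m ∧ j = m) ∨ (above ∧ i < m ∧ m < j) ∨ (¬ above ∧ j < m ∧ m < i) ∨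
    (inc ∧ m < i ∧ i < j) ∨ (¬ inc ∧ m < j ∧ j < i)

/-- the relation `r` between the gaps `g 0, ..., g (k - 1)` implies that the first is smaller than
the second, with `F`-separation; all gaps are `F`-separated -/
def Pat (F : ℕ → ℕ) (k : ℕ) (r : ℕ → ℕ → Prop) (g : ℕ → ℕ) : Prop :=
  (∀ i < k, ∀ j < k, r i j → F (g i) < g j) ∧
    ∀ i < k, ∀ j < k, i ≠ j → F (g i) < g j ∨ F (g j) < g i

theorem Pat.congr {F : ℕ → ℕ} {k : ℕ} {r : ℕ → ℕ → Prop} (g g' : ℕ → ℕ)
    (h : ∀ i < k, g i = g' i) (hg : Pat F k r g) : Pat F k r g' := by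
  refine ⟨fun i hi j hj hij => ?_, fun i hi j hj hij => ?_⟩
  · rw [← h i hi, ← h j hj]
    exact hg.1 i hi j hj hij
  · rw [← h i hi, ← h j hj]
    exact hg.2 i hi j hj hij

/-- all gaps are separated -/
theorem Sq.sep {F : ℕ → ℕ} {low dec : Prop} {k n : ℕ} {G c : ℕ → ℕ} {a b : ℕ}
    (h : Sq F low dec k n G c a b) (i j : ℕ) (hij : i < j) (hj : j + 1 < n) :
    F (G i) < G j ∨ F (G j) < G i := by
  classical
  rcases Nat.eq_or_lt_of_le (h.mono j (j + 1) (by omega) hj) with e1 | l1
  · rcases Nat.eq_or_lt_of_le (h.mono (i + 1) j (by omega) (by omega)) with e2 | l2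
    · rcases Nat.eq_or_lt_of_le (h.mono i (i + 1) (by omega) (by omega)) with e3 | l3
      · by_cases hd : dec
        · exact Or.inr (h.g5 hd i j hij hj (by omega))
        · exact Or.inl (h.g4 hd i j hij hj (by omega))
      · exact Or.inr (h.g2 i j hij hj l3 (by omega))
    · by_cases hl : low
      · exact Or.inr (h.g3' hl i j hij hj e1 l2)
      · exact Or.inl (h.g3 hl i j hij hj e1 l2)
  · exact Or.inl (h.g1 i j hij hj l1)

theorem forced_rel (F : ℕ → ℕ) (hF : Monotone F) (k m : ℕ) (hm : m < k) (above inc : Prop) :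
    Forced k (Pat F k (Rel m above inc)) := by
  refine forced_of F hF (¬ above) (¬ inc) k _ fun n G c a b h => ?_
  have hab := h.ab
  have hbn := h.bn
  obtain ⟨b', hb'⟩ : ∃ b', b = b' + m + 1 := ⟨b - 1 - m, by omega⟩
  -- the labels behind the largest gap
  have hcb : ∀ l, m < l → l ≤ k → c (b' + l) = c b := by
    intro l hl hlk
    rw [show b' + l = b + (l - m - 1) by omega, h.cb _ (by omega)]
  have hcb' : ∀ l, l ≤ m → c (b' + l) < c b := fun l hl => h.fst _ (by omega)
  have hbm : c (b' + m + 1) = c b := by rw [hb']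
  refine ⟨b', by omega, fun i hi j hj hij => ?_, fun i hi j hj hij => ?_⟩
  · simp only
    rcases hij with ⟨him, rfl⟩ | ⟨hA, him, hmj⟩ | ⟨hA, hjm, hmi⟩ | ⟨hI, hmi, hij⟩ | ⟨hI, hmj, hji⟩
    · rcases Nat.lt_or_gt_of_ne him with h1 | h1
      · refine h.g1 _ _ (by omega) (by omega) ?_
        rw [hbm]
        exact hcb' j le_rfl
      · refine h.g2 _ _ (by omega) (by omega) ?_ ?_
        · rw [hbm]
          exact hcb' j le_rfl
        · rw [hbm]
          exact (hcb (i + 1) (by omega) (by omega)).symm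
    · refine h.g3 (not_not_intro hA) _ _ (by omega) (by omega) ?_ ?_
      · rw [hcb j hmj hj.le]
        exact (hcb (j + 1) (by omega) (by omega)).symm
      · rw [hcb j hmj hj.le]
        exact hcb' (i + 1) (by omega)
    · refine h.g3' hA _ _ (by omega) (by omega) ?_ ?_
      · rw [hcb i hmi hi.le]
        exact (hcb (i + 1) (by omega) (by omega)).symm
      · rw [hcb i hmi hi.le]
        exact hcb' (j + 1) (by omega)
    · refine h.g4 (not_not_intro hI) _ _ (by omega) (by omega) ?_
      rw [hcb i hmi hi.le]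
      exact (hcb (j + 1) (by omega) (by omega)).symm
    · refine h.g5 hI _ _ (by omega) (by omega) ?_
      rw [hcb j hmj hj.le]
      exact (hcb (i + 1) (by omega) (by omega)).symm
  · simp only
    rcases Nat.lt_or_gt_of_ne hij with h1 | h1
    · exact h.sep _ _ (by omega) (by omega)
    · exact (h.sep _ _ (by omega) (by omega)).symm

end Pool.Agent.Helper71.GO
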