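import Pool.Agent.Helper71.GO.Pat
import Pool.Agent.Helper90.MT.Gaps

/-!
Project GapOrders (MP_3ec731_nt): from forced gap patterns to prime gaps, with the sieve theorem
`StG` of project MT (helper90).
-/

namespace Pool.Agent.Helper71.GO

open Finset Pool.Agent.Helper90.MT

theorem exists_idx (r : ℕ) (κ : ℕ → ℕ) : ∀ C : Finset ℕ, C.card = ∑ l ∈ range r, κ l →
    ∃ idx : ℕ → ℕ, (∀ x ∈ C, idx x < r) ∧ ∀ l < r, (C.filter (fun x => idx x = l)).card = κ l := by
  classical
  induction r with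
  | zero =>
    intro C hC
    rw [range_zero, sum_empty, card_eq_zero] at hC
    subst hC
    exact ⟨fun _ => 0, fun x hx => absurd hx (notMem_empty _), fun l hl => absurd hl (by omega)⟩
  | succ r ih =>
    intro C hC
    rw [sum_range_succ] at hC
    obtain ⟨D, hD, hDc⟩ := exists_subset_card_eq (show κ r ≤ C.card by omega)
    obtain ⟨idx, h1, h2⟩ := ih (C \ D) (by rw [card_sdiff_of_subset hD]; omega)
    refine ⟨fun x => if x ∈ D then r else idx x, fun x hx => ?_, fun l hl => ?_⟩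
    · simp only
      split_ifs with h
      · exact Nat.lt_succ_self r
      · exact (h1 x (mem_sdiff.2 ⟨hx, h⟩)).trans (Nat.lt_succ_self r)
    · rcases Nat.lt_succ_iff_lt_or_eq.1 hl with hl | rfl
      · rw [← h2 l hl]
        congr 1
        ext x
        simp only [mem_filter, mem_sdiff]
        constructor
        · rintro ⟨hx, he⟩
          split_ifs at he with h
          · omega
          · exact ⟨⟨hx, h⟩, he⟩
        · rintro ⟨⟨hx, h⟩, he⟩
          rw [if_neg h]
          exact ⟨hx, he⟩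
      · rw [← hDc]
        congr 1
        ext x
        simp only [mem_filter]
        constructor
        · rintro ⟨hx, he⟩
          split_ifs at he with h
          · exact h
          · have := h1 x (mem_sdiff.2 ⟨hx, h⟩)
            omega
        · intro h
          rw [if_pos h]
          exact ⟨hD h, rfl⟩

theorem avg (s : Finset ℕ) (u : ℕ → ℝ) (hu : ∀ n, 0 ≤ u n) (h1 : ∑ n ∈ s, u n = 1) (m t : ℕ)
    (hm : 0 < m) (δ : ℝ) (B : ℕ → ℕ → Prop) [∀ j n, Decidable (B j n)]
    (hB : ∀ j < m, δ ≤ ∑ n ∈ s.filter (fun n => B j n), u n) :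
    δ - t / m ≤
      ∑ n ∈ s.filter (fun n => t ≤ ((range m).filter (fun j => B j n)).card), u n := by
  set P := ∑ n ∈ s.filter (fun n => t ≤ ((range m).filter (fun j => B j n)).card), u n with hP
  have hm' : (0 : ℝ) < m := by exact_mod_cast hm
  have h2 : (m : ℝ) * δ ≤ t + m * P := by
    calc (m : ℝ) * δ = ∑ j ∈ range m, δ := by rw [sum_const, card_range, nsmul_eq_mul]
      _ ≤ ∑ j ∈ range m, ∑ n ∈ s.filter (fun n => B j n), u n :=
          sum_le_sum fun j hj => hB j (mem_range.1 hj)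
      _ = ∑ n ∈ s, ∑ j ∈ range m, if B j n then u n else 0 := by
          rw [sum_comm]
          refine sum_congr rfl fun j _ => ?_
          rw [sum_filter]
      _ = ∑ n ∈ s, ((range m).filter (fun j => B j n)).card * u n := by
          refine sum_congr rfl fun n _ => ?_
          rw [← sum_filter, sum_const, nsmul_eq_mul]
      _ ≤ ∑ n ∈ s, (t * u n +
            if t ≤ ((range m).filter (fun j => B j n)).card then m * u n else 0) := by
          refine sum_le_sum fun n _ => ?_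
          have hun := hu n
          split_ifs with h
          · have h3 : (((range m).filter (fun j => B j n)).card : ℝ) ≤ m := by
              have := card_filter_le (range m) (fun j => B j n)
              rw [card_range] at this
              exact_mod_cast this
            have h4 : 0 ≤ (t : ℝ) * u n := by positivity
            nlinarith
          · have h3 : (((range m).filter (fun j => B j n)).card : ℝ) ≤ t := by
              rw [not_le] at h
              exact_mod_cast h.le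
            nlinarith
      _ = t + m * P := by
          rw [sum_add_distrib, ← mul_sum, h1, mul_one, ← sum_filter, ← mul_sum]
  rw [sub_le_iff_le_add, ← sub_le_iff_le_add', le_div_iff₀ hm']
  nlinarith

theorem exists_residue {p T : ℕ} (hp : p.Prime) (hT : T < p) (U : Finset ℕ) (hU : U.card ≤ T) :
    ∃ r : ℕ, ∀ h ∈ U, ¬ p ∣ r + h := by
  classical
  have h1 : (U.image (fun h => (p - h % p) % p)).card < (range p).card := by
    rw [card_range]
    exact lt_of_le_of_lt (card_image_le.trans hU) hT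
  obtain ⟨r, hr, hr'⟩ := exists_mem_notMem_of_card_lt_card h1
  refine ⟨r, fun h hh hdvd => hr' (mem_image.2 ⟨h, hh, ?_⟩)⟩
  rw [mem_range] at hr
  have h2 : h % p < p := Nat.mod_lt _ hp.pos
  have h3 : p ∣ r + h % p := by
    have : r + h = r + h % p + p * (h / p) := by
      have := Nat.mod_add_div h p
      omega
    rw [this] at hdvd
    exact (Nat.dvd_add_left (dvd_mul_right _ _)).1 hdvd
  obtain ⟨t, ht⟩ := h3
  have ht2 : t < 2 := by
    by_contra hcon
    have : p * 2 ≤ p * t := Nat.mul_le_mul_left _ (by omega)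
    omega
  interval_cases t
  · have e1 : r = 0 := by omega
    have e2 : h % p = 0 := by omega
    rw [e1, e2, Nat.sub_zero, Nat.mod_self]
  · have e1 : p - h % p = r := by omega
    rw [e1, Nat.mod_eq_of_lt hr]

theorem sieve (k : ℕ) (Q : (ℕ → ℕ) → Prop)
    (hQ : ∀ g g' : ℕ → ℕ, (∀ i < k, g i = g' i) → Q g → Q g') (hf : Forced k Q) (q a : ℕ)
    (hq : 0 < q) (ha : a.Coprime q) :
    ∃ L : ℕ, ∀ ε : ℝ, 0 < ε → ∀ x₀ : ℕ,
    ∃ x ≥ x₀, (x : ℝ) ^ (1 - ε) ≤ Set.ncard {n : ℕ | n < x ∧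
      (∀ i ≤ k, Nat.nth Nat.Prime (n + i) ≡ a [MOD q]) ∧
      (∀ i < k, Nat.nth Nat.Prime (n + i + 1) - Nat.nth Nat.Prime (n + i) < L) ∧
      Q (fun i => Nat.nth Nat.Prime (n + i + 1) - Nat.nth Nat.Prime (n + i))} := by
  classical
  obtain ⟨δ, hδ, K, hK, hG⟩ := glob_all
  -- the numbers of groups and of clusters
  obtain ⟨r, hr0, hr⟩ : ∃ r : ℕ, 0 < r ∧ ((k + 1 : ℕ) : ℝ) / r ≤ δ / 2 := by
    obtain ⟨r, hr⟩ := exists_nat_gt (((k + 1 : ℕ) : ℝ) / (δ / 2))
    have h0 : (0 : ℝ) < r := lt_of_le_of_lt (by positivity) hr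
    refine ⟨r, by exact_mod_cast h0, ?_⟩
    rw [div_le_iff₀ h0]
    rw [div_lt_iff₀ (by positivity)] at hr
    linarith
  obtain ⟨R, hR0, hR⟩ : ∃ R : ℕ, 0 < R ∧ ((2 : ℕ) : ℝ) / R ≤ δ / 4 := by
    obtain ⟨R, hR⟩ := exists_nat_gt (((2 : ℕ) : ℝ) / (δ / 4))
    have h0 : (0 : ℝ) < R := lt_of_le_of_lt (by positivity) hR
    refine ⟨R, by exact_mod_cast h0, ?_⟩
    rw [div_le_iff₀ h0]
    rw [div_lt_iff₀ (by positivity)] at hR
    linarith
  set T := ∑ i ∈ range R, ∑ l ∈ range r, K (r * i + l) with hT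
  obtain ⟨C, hC1, hC2, hC3, hC4⟩ := hf (q * T.factorial) R (fun i => ∑ l ∈ range r, K (r * i + l))
    (by positivity)
  have hidx : ∀ i, ∃ idx : ℕ → ℕ, i < R → (∀ x ∈ C i, idx x < r) ∧
      ∀ l < r, ((C i).filter (fun x => idx x = l)).card = K (r * i + l) := by
    intro i
    by_cases hi : i < R
    · obtain ⟨idx, h⟩ := exists_idx r (fun l => K (r * i + l)) (C i) (hC1 i hi)
      exact ⟨idx, fun _ => h⟩
    · exact ⟨fun _ => 0, fun h => absurd h hi⟩
  choose idx hidx using hidx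
  set H : ℕ → Finset ℕ := fun j => (C (j / r)).filter (fun x => idx (j / r) x = j % r) with hH
  set U : Finset ℕ := (range R).biUnion C with hU
  have hmemU : ∀ i < R, ∀ x ∈ C i, x ∈ U := fun i hi x hx =>
    mem_biUnion.2 ⟨i, mem_range.2 hi, hx⟩
  have hUcard : U.card ≤ T := by
    refine card_biUnion_le.trans (le_of_eq (sum_congr rfl fun i hi => hC1 i (mem_range.1 hi)))
  obtain ⟨L, hL⟩ : ∃ L : ℕ, ∀ x ∈ U, x < L :=
    ⟨(∑ x ∈ U, x) + 1, fun x hx => Nat.lt_succ_of_le
      (single_le_sum (f := fun x => x) (fun _ _ => Nat.zero_le _) hx)⟩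
  have hUdvd : ∀ x ∈ U, q * T.factorial ∣ x := by
    intro x hx
    obtain ⟨i, hi, hx⟩ := mem_biUnion.1 hx
    exact hC3 i (mem_range.1 hi) x hx
  have hJ : ∀ j, j < r * R → j / r < R := fun j hj => Nat.div_lt_of_lt_mul hj
  have hHsub : ∀ j, j < r * R → ∀ x ∈ H j, x ∈ U := fun j hj x hx =>
    hmemU _ (hJ j hj) x (mem_filter.1 hx).1
  set E : Finset ℕ := (range L).filter (fun x => x ∉ U) with hE
  refine ⟨L, fun ε hε x₀ => ?_⟩
  -- reduction to `ε ≤ 1`
  wlog hε1 : ε ≤ 1 generalizing ε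
  · obtain ⟨x, hx, h⟩ := this 1 one_pos le_rfl
    refine ⟨x, hx, le_trans ?_ h⟩
    rcases Nat.eq_zero_or_pos x with h0 | h0
    · subst h0
      rw [sub_self, Real.rpow_zero, Nat.cast_zero, Real.zero_rpow (by linarith)]
      exact zero_le_one
    · exact Real.rpow_le_rpow_of_exponent_le (by exact_mod_cast h0) (by linarith)
  -- the numerical inequality
  obtain ⟨N₁, hN₁⟩ := Seg.num ε (δ / (8 * (L + 1))) hε (by positivity)
  obtain ⟨N, hN, u, hu0, hu1, hu2, hu3, hu4⟩ := hG (r * R) H E q a (max (max N₁ L) (max x₀ 1))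
    (ε / 2) hq (by positivity)
    (by
      intro j hj
      have h1 := (hidx (j / r) (hJ j hj)).2 (j % r) (Nat.mod_lt _ hr0)
      rw [Nat.div_add_mod] at h1
      exact h1)
    (by
      intro i hi j hj hij
      rw [Finset.disjoint_left]
      intro x hx hx'
      rw [hH, mem_filter] at hx hx'
      by_cases hd : i / r = j / r
      · refine hij ?_
        have h1 : i % r = j % r := by rw [← hx.2, ← hx'.2, hd]
        rw [← Nat.div_add_mod i r, ← Nat.div_add_mod j r, hd, h1]
      · exact Finset.disjoint_left.1 (hC2 _ (hJ i hi) _ (hJ j hj) hd) hx.1 hx'.1)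
    (by
      intro j hj
      rw [Finset.disjoint_left]
      intro x hx hx'
      exact (mem_filter.1 hx').2 (hHsub j hj x hx))
    (by
      intro p hp
      by_cases hpT : p ≤ T
      · refine ⟨1, fun j hj h hh hdvd => ?_⟩
        have h1 : p ∣ h := ((Nat.dvd_factorial hp.pos hpT).trans (dvd_mul_left _ _)).trans
          (hUdvd h (hHsub j hj h hh))
        have h2 : p ∣ 1 := (Nat.dvd_add_left h1).1 hdvd
        exact hp.one_lt.ne' (Nat.dvd_one.1 h2)
      · obtain ⟨t, ht⟩ := exists_residue hp (not_le.1 hpT) U hUcard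
        exact ⟨t, fun j hj h hh => ht h (hHsub j hj h hh)⟩)
    (by
      intro j hj h hh
      obtain ⟨t, ht⟩ := (dvd_mul_right q T.factorial).trans (hUdvd h (hHsub j hj h hh))
      rw [ht]
      simpa [Nat.coprime_add_mul_left_left] using ha)
  have hNN₁ : N₁ ≤ N := ((le_max_left _ _).trans (le_max_left _ _)).trans hN
  have hNL : L ≤ N := ((le_max_right _ _).trans (le_max_left _ _)).trans hN
  have hNx : x₀ ≤ N := ((le_max_left _ _).trans (le_max_right _ _)).trans hN
  have hN1 : 1 ≤ N := ((le_max_right _ _).trans (le_max_right _ _)).trans hN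
  have hN0 : (0 : ℝ) < N := by exact_mod_cast hN1
  -- rich clusters
  obtain ⟨hit, hhit⟩ : ∃ hit : ℕ → ℕ → ℕ → Prop, ∀ i l n, hit i l n ↔
      ∃ h ∈ (C i).filter (fun x => idx i x = l), (n + h).Prime := ⟨_, fun _ _ _ => Iff.rfl⟩
  obtain ⟨rich, hrich⟩ : ∃ rich : ℕ → ℕ → Prop, ∀ i n, rich i n ↔
      k + 1 ≤ ((range r).filter (fun l => hit i l n)).card := ⟨_, fun _ _ => Iff.rfl⟩
  have hr1 : ∀ i < R, δ / 2 ≤ ∑ n ∈ (Ioc N (4 * N)).filter (fun n => rich i n), u n := by
    intro i hi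
    have h1 := avg (Ioc N (4 * N)) u hu0 hu3 r (k + 1) hr0 δ (fun l n => hit i l n) (by
      intro l hl
      have hlt : r * i + l < r * R := by
        calc r * i + l < r * i + r := by omega
          _ = r * (i + 1) := by ring
          _ ≤ r * R := Nat.mul_le_mul_left _ hi
      have h2 := hu4 (r * i + l) hlt
      refine h2.trans (le_of_eq ?_)
      congr 1
      refine filter_congr fun n _ => ?_
      have e1 : (r * i + l) / r = i := by
        rw [Nat.mul_add_div hr0, Nat.div_eq_of_lt hl, add_zero]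
      have e2 : (r * i + l) % r = l := by
        rw [Nat.mul_add_mod, Nat.mod_eq_of_lt hl]
      rw [hhit, hH]
      simp only [e1, e2])
    have h2 : ∑ n ∈ (Ioc N (4 * N)).filter (fun n => rich i n), u n =
        ∑ n ∈ (Ioc N (4 * N)).filter
          (fun n => k + 1 ≤ ((range r).filter (fun l => hit i l n)).card), u n :=
      sum_congr (filter_congr fun n _ => hrich i n) fun _ _ => rfl
    rw [h2]
    linarith
  have hr2 := avg (Ioc N (4 * N)) u hu0 hu3 R 2 hR0 (δ / 2) rich hr1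
  set Gd := (Ioc N (4 * N)).filter (fun n => u n ≠ 0 ∧
    2 ≤ ((range R).filter (fun i => rich i n)).card) with hGd
  have hmass : δ / 4 ≤ ∑ n ∈ Gd, u n := by
    have e1 : ∑ n ∈ (Ioc N (4 * N)).filter
        (fun n => 2 ≤ ((range R).filter (fun i => rich i n)).card), u n = ∑ n ∈ Gd, u n := by
      symm
      refine sum_subset (fun n hn => ?_) (fun n hn hn' => ?_)
      · rw [hGd, mem_filter] at hn
        exact mem_filter.2 ⟨hn.1, hn.2.2⟩
      · rw [mem_filter] at hn
        by_contra hne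
        exact hn' (mem_filter.2 ⟨hn.1, hne, hn.2⟩)
    rw [← e1]
    linarith
  have hcard : δ / 4 * (N : ℝ) ^ (1 - ε / 2) ≤ Gd.card := by
    have h1 : ∑ n ∈ Gd, u n ≤ Gd.card * (N : ℝ) ^ (ε / 2 - 1) := by
      rw [← nsmul_eq_mul]
      exact sum_le_card_nsmul _ _ _ fun n _ => hu1 n
    have h2 := mul_le_mul_of_nonneg_right (hmass.trans h1)
      (Real.rpow_nonneg hN0.le (1 - ε / 2))
    rw [mul_assoc, ← Real.rpow_add hN0, show ε / 2 - 1 + (1 - ε / 2) = 0 by ring,
      Real.rpow_zero, mul_one] at h2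
    exact h2
  -- the windows
  have hwin : ∀ n ∈ Gd, ∃ i : ℕ, i < 4 * (N + L) + 1 ∧
      (∀ l ≤ k, Nat.nth Nat.Prime (i + l) ≡ a [MOD q]) ∧
      (∀ l < k, Nat.nth Nat.Prime (i + l + 1) - Nat.nth Nat.Prime (i + l) < L) ∧
      Q (fun l => Nat.nth Nat.Prime (i + l + 1) - Nat.nth Nat.Prime (i + l)) ∧
      n ≤ Nat.nth Nat.Prime i ∧ Nat.nth Nat.Prime i ≤ n + L := by
    intro n hn
    rw [hGd, mem_filter, mem_Ioc] at hn
    obtain ⟨⟨hn1, hn2⟩, hun, hn3⟩ := hn
    obtain ⟨-, hnv, hnE⟩ := hu2 n hun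
    set S := U.filter (fun h => (n + h).Prime) with hS
    have hS1 : ∀ i < R, rich i n → k + 1 ≤ (S ∩ C i).card := by
      intro i hi hri
      refine ((hrich i n).1 hri).trans ?_
      refine (card_le_card ?_).trans (card_image_le (f := idx i))
      intro l hl
      rw [mem_filter] at hl
      obtain ⟨h, hh, hp⟩ := (hhit i l n).1 hl.2
      rw [mem_filter] at hh
      exact mem_image.2 ⟨h, mem_inter.2 ⟨mem_filter.2 ⟨hmemU i hi h hh.1, hp⟩, hh.1⟩, hh.2⟩
    obtain ⟨i, hi, j, hj, hij, hri, hrj⟩ : ∃ i < R, ∃ j < R, i ≠ j ∧ rich i n ∧ rich j n := by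
      obtain ⟨i, hi, j, hj, hij⟩ := one_lt_card.1 (show 1 < _ from hn3)
      rw [mem_filter, mem_range] at hi hj
      exact ⟨i, hi.1, j, hj.1, hij, hi.2, hj.2⟩
    obtain ⟨g, hg, x, hx1, hx2⟩ := hC4 S (fun y hy => by
        obtain ⟨i, hi, h⟩ := mem_biUnion.1 (mem_filter.1 hy).1
        exact ⟨i, mem_range.1 hi, h⟩)
      ⟨i, hi, j, hj, hij, hS1 i hi hri, hS1 j hj hrj⟩
    have hmemS : ∀ l ≤ k, x + ∑ t ∈ range l, g t ∈ S := by
      intro l hl
      refine (hx2 _ (by omega) ?_).2 ⟨l, hl, rfl⟩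
      exact Nat.add_le_add_left (sum_le_sum_of_subset (range_subset_range.2 hl)) _
    have hlast : x + ∑ t ∈ range k, g t < L := hL _ (mem_filter.1 (hmemS k le_rfl)).1
    have hprime : ∀ y, y < L → ((n + y).Prime ↔ y ∈ S) := by
      intro y hy
      constructor
      · intro hp
        by_contra hyS
        have hyU : y ∉ U := fun h => hyS (mem_filter.2 ⟨h, hp⟩)
        exact hnE y (mem_filter.2 ⟨mem_range.2 hy, hyU⟩) hp
      · intro h
        exact (mem_filter.1 h).2
    obtain ⟨h3, h4⟩ := gaps_of_Rl k g hx1 (n + x) (by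
      intro t ht
      rw [add_assoc, hprime (x + t) (by omega), hx2 (x + t) (by omega) (by omega)]
      constructor
      · rintro ⟨i, hi, he⟩
        exact ⟨i, hi, by omega⟩
      · rintro ⟨i, hi, he⟩
        exact ⟨i, hi, by omega⟩)
    have h5 := h4 0 (Nat.zero_le k)
    rw [add_zero, range_zero, sum_empty, add_zero] at h5
    have hgap : ∀ l < k, Nat.nth Nat.Prime (Nat.count Nat.Prime (n + x) + l + 1) -
        Nat.nth Nat.Prime (Nat.count Nat.Prime (n + x) + l) = g l := by
      intro l hl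
      have e1 := h4 (l + 1) (by omega)
      have e2 := h4 l (by omega)
      rw [sum_range_succ] at e1
      rw [show Nat.count Nat.Prime (n + x) + l + 1 = Nat.count Nat.Prime (n + x) + (l + 1) by ring,
        e1, e2]
      omega
    refine ⟨Nat.count Nat.Prime (n + x), ?_, ?_, ?_, ?_, ?_, ?_⟩
    · have := Nat.count_le (p := Nat.Prime) (n := n + x)
      omega
    · intro l hl
      rw [h4 l hl, add_assoc]
      have h6 := hUdvd _ (mem_filter.1 (hmemS l hl)).1
      obtain ⟨t, ht⟩ := (dvd_mul_right q T.factorial).trans h6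
      rw [ht]
      have h7 : n + q * t ≡ n [MOD q] := by
        unfold Nat.ModEq
        rw [Nat.add_mul_mod_self_left]
      exact h7.trans hnv
    · intro l hl
      rw [hgap l hl]
      have := single_le_sum (f := g) (fun _ _ => Nat.zero_le _) (mem_range.2 hl)
      omega
    · exact hQ g _ (fun l hl => (hgap l hl).symm) hg
    · rw [h5]; omega
    · rw [h5]; omega
  have hwin' : ∀ n, ∃ i : ℕ, n ∈ Gd → i < 4 * (N + L) + 1 ∧
      (∀ l ≤ k, Nat.nth Nat.Prime (i + l) ≡ a [MOD q]) ∧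
      (∀ l < k, Nat.nth Nat.Prime (i + l + 1) - Nat.nth Nat.Prime (i + l) < L) ∧
      Q (fun l => Nat.nth Nat.Prime (i + l + 1) - Nat.nth Nat.Prime (i + l)) ∧
      n ≤ Nat.nth Nat.Prime i ∧ Nat.nth Nat.Prime i ≤ n + L := by
    intro n
    by_cases hn : n ∈ Gd
    · obtain ⟨i, hi⟩ := hwin n hn
      exact ⟨i, fun _ => hi⟩
    · exact ⟨0, fun h => absurd h hn⟩
  choose φ hφ using hwin'
  have hfib : Gd.card ≤ (L + 1) * (Gd.image φ).card := by
    refine card_le_mul_card_image _ _ fun i _ => ?_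
    have hsub : Gd.filter (fun n => φ n = i) ⊆
        Icc (Nat.nth Nat.Prime i - L) (Nat.nth Nat.Prime i) := by
      intro n hn
      rw [mem_filter] at hn
      have h1 := hφ n hn.1
      rw [hn.2] at h1
      rw [mem_Icc]
      omega
    refine (card_le_card hsub).trans ?_
    rw [Nat.card_Icc]
    omega
  refine ⟨4 * (N + L) + 1, by omega, ?_⟩
  set A : Set ℕ := {n : ℕ | n < 4 * (N + L) + 1 ∧
      (∀ i ≤ k, Nat.nth Nat.Prime (n + i) ≡ a [MOD q]) ∧
      (∀ i < k, Nat.nth Nat.Prime (n + i + 1) - Nat.nth Nat.Prime (n + i) < L) ∧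
      Q (fun i => Nat.nth Nat.Prime (n + i + 1) - Nat.nth Nat.Prime (n + i))} with hA
  have hAfin : A.Finite := (Set.finite_lt_nat _).subset fun n hn => hn.1
  have hle : (Gd.image φ).card ≤ Set.ncard A := by
    rw [← Set.ncard_coe_finset]
    refine Set.ncard_le_ncard ?_ hAfin
    intro i hi
    obtain ⟨n, hn, rfl⟩ := mem_image.1 (mem_coe.1 hi)
    obtain ⟨h1, h2, h3, h4, -⟩ := hφ n hn
    exact ⟨h1, h2, h3, h4⟩
  have h1 := hN₁ (N + L) (by omega) (ε / 2) le_rfl
  have h2 : ((N + L : ℕ) : ℝ) ^ (1 - ε / 2) ≤ 2 * (N : ℝ) ^ (1 - ε / 2) := by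
    calc ((N + L : ℕ) : ℝ) ^ (1 - ε / 2) ≤ (2 * (N : ℝ)) ^ (1 - ε / 2) := by
          refine Real.rpow_le_rpow (by positivity) ?_ (by linarith)
          have : (L : ℝ) ≤ N := by exact_mod_cast hNL
          push_cast
          linarith
      _ = (2 : ℝ) ^ (1 - ε / 2) * (N : ℝ) ^ (1 - ε / 2) :=
          Real.mul_rpow (by norm_num) hN0.le
      _ ≤ (2 : ℝ) ^ (1 : ℝ) * (N : ℝ) ^ (1 - ε / 2) := by
          gcongr
          · norm_num
          · linarith
      _ = _ := by rw [Real.rpow_one]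
  have h3 : (Gd.card : ℝ) ≤ (L + 1) * (Set.ncard A : ℝ) := by
    have : (Gd.card : ℝ) ≤ ((L + 1 : ℕ) : ℝ) * ((Gd.image φ).card : ℝ) := by
      exact_mod_cast hfib
    refine this.trans ?_
    push_cast
    gcongr
  have hL0 : (0 : ℝ) < (L : ℝ) + 1 := by positivity
  calc ((4 * (N + L) + 1 : ℕ) : ℝ) ^ (1 - ε)
      ≤ δ / (8 * (L + 1)) * ((N + L : ℕ) : ℝ) ^ (1 - ε / 2) := h1
    _ ≤ δ / (8 * (L + 1)) * (2 * (N : ℝ) ^ (1 - ε / 2)) := by gcongr
    _ = (δ / 4 * (N : ℝ) ^ (1 - ε / 2)) / (L + 1) := by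
        field_simp
        ring
    _ ≤ ((L + 1) * (Set.ncard A : ℝ)) / (L + 1) :=
        div_le_div_of_nonneg_right (hcard.trans h3) hL0.le
    _ = Set.ncard A := by field_simp

end Pool.Agent.Helper71.GO
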